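import Pool.Agent.Work.Monodromy13.All13
import Pool.Agent.Work.Monodromy_helper63.FixE
import Pool.Agent.Work.Monodromy.StatementS

/-!
# Phase 15: stably nondegenerate polynomials (helper17)
-/

set_option autoImplicit false

namespace Pool.Agent.Mono.NP

open MvPolynomial FixE

theorem mc_stable (E : EulerMeasure) {n : ℕ} (f : MvPolynomial (Fin n) ℂ)
    (hf : f.totalDegree ≠ 0) (hN : IsStablyNondegenerate f) (R : RatFunc ℚ)
    (hR : IsTopologicalZeta E.toHodgeMeasure f R) : GoodPoles f R := by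
  obtain ⟨N, α, hα⟩ := hN
  have hc : Fintype.card (Fin n ⊕ (Fin N × Bool)) = Fintype.card (Fin (n + 2 * N)) := by
    simp; ring
  have h0 : (α (susN N f)).totalDegree ≠ 0 :=
    Cub.totalDegree_alg α (Cub.totalDegree_susN N hf)
  have h1 : MCE E.toHodgeMeasure (α (susN N f)) := fun R hR s hs =>
    mc_nondeg E _ h0 hα R ((isTopologicalZeta_iff _ _ _).2 hR) s hs
  have h2 := (MCE_susN E.toHodgeMeasure hf N).1 ((MCE_iff α (susN N f) hc E.toHodgeMeasure).1 h1)
  exact fun s hs => h2 R ((isTopologicalZeta_iff _ _ _).1 hR) s hs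

theorem mc_stable_tw (E : EulerMeasure) {n : ℕ} (f : MvPolynomial (Fin n) ℂ)
    (hf : f.totalDegree ≠ 0) (hN : IsStablyNondegenerate f) (e : ℕ) (he : 1 ≤ e) (R : RatFunc ℚ)
    (hR : IsTwTopZeta E.toHodgeMeasure f e R) : GoodPoles f R := by
  obtain ⟨N, α, hα⟩ := hN
  have hc : Fintype.card (Fin n ⊕ (Fin N × Bool)) = Fintype.card (Fin (n + 2 * N)) := by
    simp; ring
  have h0 : (α (susN N f)).totalDegree ≠ 0 :=
    Cub.totalDegree_alg α (Cub.totalDegree_susN N hf)
  have h1 : MCEtw E.toHodgeMeasure e (α (susN N f)) := fun R hR s hs =>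
    mc_nondeg_tw E _ h0 hα e he R hR s hs
  have h2 := (MCE_susN E.toHodgeMeasure hf N).2 e he
    ((MCEtw_iff α (susN N f) hc E.toHodgeMeasure e).1 h1)
  exact fun s hs => h2 R hR s hs

/-- nondegenerate polynomials are stably nondegenerate -/
theorem stably_of_nondeg {n : ℕ} {f : MvPolynomial (Fin n) ℂ} (hN : IsNondegenerate f) :
    IsStablyNondegenerate f := by
  refine ⟨0, renameEquiv ℂ (Equiv.sumEmpty (Fin n) (Fin 0 × Bool)), ?_⟩
  have h := Cub.rename_susZero (ι := Fin n) f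
  unfold susN at h
  rw [h]
  exact hN

end Pool.Agent.Mono.NP
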